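import Pool.Agent.Mg.Fa078ad.Ga7d7d2

open Pool.Agent.MP_a078ad_lc

theorem Pool.Agent.Results.MP_a078ad_lc.NotChoiceModel.result :
    ∃ (M : Type 1) (E : M → M → Prop), IsZF E ∧ WFs4 E ∧ ¬ AC E :=
  Pool.Agent.MP_a078ad_lc.main
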