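import Pool.Agent.MP_a078ad_lc.Dim

open Pool.Agent.MP_c6cf52_lc Pool.Agent.MP_a078ad_lc

/-- A model of ZF without choice in which the surjective comparison of sets is the product order
of two ordinal invariants. -/
theorem Pool.Agent.Results.MP_a078ad_lc.TwoOrdinals.result :
    ∃ (M : Type 1) (E : M → M → Prop), IsZF E ∧ ¬ AC E ∧
      ∀ F, ∃ a b U, IsFun E a F U ∧ IsFun E b F U ∧ (∀ u, E u U → IsOrd E u) ∧
        ∀ X Y α β γ δ, App E a X α → App E b X β → App E a Y γ → App E b Y δ →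
          (LeStar E X Y ↔ (E α γ ∨ α = γ) ∧ (E β δ ∨ β = δ)) := by
  obtain ⟨g, -, hC⟩ := exists_gn ⊤ {aN} (Set.countable_singleton _) (by simpa using hs_aN)
  exact ⟨g.M, g.E, g.isZF, not_ac (hC rfl), Dim.dim g⟩
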